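import Pool.Agent.H5.BP.Stm

/-!
# The inductive step and the start (`S_step`, `S_init`)
-/

set_option autoImplicit false

namespace Pool.Agent.H18.BP

open Complex Metric Set Filter Topology Pool.Agent.H5.BP

variable {f g Q : ℂ → ℂ}

theorem FB.diffAt (hf : FB f) {z : ℂ} (hz : ‖z‖ ≤ 1) : DifferentiableAt ℂ f z :=
  (hf.an z (by simpa using hz)).differentiableAt

theorem FB.diffOn (hf : FB f) : DifferentiableOn ℂ f (ball 0 1) := fun z hz =>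
  (FB.diffAt hf (by simpa using (mem_ball.1 hz).le)).differentiableWithinAt

theorem FB.norm_le (hf : FB f) {z : ℂ} (hz : ‖z‖ ≤ 1) : ‖f z‖ ≤ 1 := by
  have h1 : DiffContOnCl ℂ f (ball (0 : ℂ) 1) := by
    refine ⟨FB.diffOn hf, ?_⟩
    rw [closure_ball (0 : ℂ) one_ne_zero]
    exact hf.an.continuousOn
  refine Complex.norm_le_of_forall_mem_frontier_norm_le (U := ball (0 : ℂ) 1) isBounded_ball h1
    (fun w hw => ?_) ?_
  · rw [frontier_ball (0 : ℂ) one_ne_zero] at hw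
    exact (hf.uni w (by simpa using hw)).le
  · rw [closure_ball (0 : ℂ) one_ne_zero]
    simpa using hz

theorem FB.norm_le_norm (hf : FB f) {z : ℂ} (hz : ‖z‖ < 1) : ‖f z‖ ≤ ‖z‖ :=
  Complex.norm_le_norm_of_mapsTo_ball (FB.diffOn hf)
    (fun w hw => by simpa using FB.norm_le hf (z := w) (by simpa using (mem_ball.1 hw).le))
    hf.zero hz

theorem FB.comp (hf : FB f) (hg : FB g) : FB (f ∘ g) where
  an := fun z hz => (hf.an (g z) (by simpa using FB.norm_le hg (by simpa using hz))).comp (hg.an z hz)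
  uni := fun z hz => hf.uni _ (hg.uni z hz)
  zero := by simp [hg.zero, hf.zero]

theorem FB.finite_crit (hf : FB f) : {z : ℂ | ‖z‖ < 1 ∧ deriv f z = 0}.Finite := by
  by_contra hinf
  obtain ⟨x, hx, hacc⟩ := Set.Infinite.exists_accPt_of_subset_isCompact hinf
    (isCompact_closedBall (0 : ℂ) 1) (fun z hz => by simpa using hz.1.le)
  rw [accPt_iff_frequently_nhdsNE] at hacc
  have h1 : EqOn (deriv f) 0 (closedBall 0 1) :=
    hf.an.deriv.eqOn_zero_of_preconnected_of_frequently_eq_zero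
      (convex_closedBall (0 : ℂ) 1).isPreconnected hx (hacc.mono fun z hz => hz.2)
  have h2 := (convex_closedBall (0 : ℂ) 1).norm_image_sub_le_of_norm_deriv_le (f := f) (C := 0)
    (fun z hz => FB.diffAt hf (by simpa using hz)) (fun z hz => by rw [h1 hz]; simp)
    (x := 0) (y := 1) (by simp) (by simp)
  rw [hf.zero, sub_zero, hf.uni 1 (by simp)] at h2
  norm_num at h2

theorem FB.deriv_comp (hf : FB f) (hg : FB g) {z : ℂ} (hz : ‖z‖ ≤ 1) :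
    deriv (f ∘ g) z = deriv f (g z) * deriv g z :=
  _root_.deriv_comp z (FB.diffAt hf (FB.norm_le hg hz)) (FB.diffAt hg hz)

theorem FB.norm_deriv_zero_le (hf : FB f) {R : ℝ} (hR : R < 1) {z : ℂ} (hz : ‖z‖ ≤ R) :
    ‖deriv f z‖ ≤ 1 / (1 - R) := by
  have hR0 : 0 < 1 - R := by linarith
  refine Complex.norm_deriv_le_of_forall_mem_sphere_norm_le hR0 ?_ fun w hw => ?_
  · refine DifferentiableOn.diffContOnCl fun w hw => ?_
    refine (FB.diffAt hf ?_).differentiableWithinAt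
    have h1 : ‖w - z‖ ≤ 1 - R := by
      have := closure_ball_subset_closedBall hw
      rwa [mem_closedBall, dist_eq_norm] at this
    calc ‖w‖ = ‖(w - z) + z‖ := by rw [sub_add_cancel]
      _ ≤ (1 - R) + R := (norm_add_le _ _).trans (add_le_add h1 hz)
      _ = 1 := by ring
  · refine FB.norm_le hf ?_
    have h1 : ‖w - z‖ = 1 - R := by simpa [dist_eq_norm] using hw
    calc ‖w‖ = ‖(w - z) + z‖ := by rw [sub_add_cancel]
      _ ≤ (1 - R) + R := (norm_add_le _ _).trans (add_le_add h1.le hz)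
      _ = 1 := by ring

theorem FB.lip (hf : FB f) {R : ℝ} (hR : R < 1) {z w : ℂ} (hz : ‖z‖ ≤ R) (hw : ‖w‖ ≤ R) :
    ‖f z - f w‖ ≤ 1 / (1 - R) * ‖z - w‖ :=
  (convex_closedBall (0 : ℂ) R).norm_image_sub_le_of_norm_deriv_le
    (fun y hy => FB.diffAt hf (le_trans (by simpa using hy) hR.le))
    (fun y hy => FB.norm_deriv_zero_le hf hR (by simpa using hy))
    (by simpa using hw) (by simpa using hz)

/-- The critical points of `Q ∘ ψ m` lie over those of `Q`. -/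
theorem crit_comp {ρ : ℝ} {ψ : ℕ → ℂ → ℂ} (hQ : FB Q)
    (h : Resolves {z | ‖z‖ < 1 ∧ deriv Q z = 0} ρ ψ) {m : ℕ} {z : ℂ} (hz : ‖z‖ < 1)
    (h0 : deriv (Q ∘ ψ m) z = 0) : ψ m z ∈ {z | ‖z‖ < 1 ∧ deriv Q z = 0} := by
  have hlt : ‖ψ m z‖ < 1 := (FB.norm_le_norm (h.fb m) hz).trans_lt hz
  by_contra hcon
  rw [FB.deriv_comp hQ (h.fb m) hz.le, mul_eq_zero] at h0
  rcases h0 with h1 | h1
  · exact hcon ⟨hlt, h1⟩
  have hopen : ball (0 : ℂ) 1 ∩ {z | ‖z‖ < 1 ∧ deriv Q z = 0}ᶜ ∈ 𝓝 (ψ m z) :=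
    inter_mem (isOpen_ball.mem_nhds (by simpa using hlt))
      ((FB.finite_crit hQ).isClosed.isOpen_compl.mem_nhds hcon)
  obtain ⟨s, hs, hsub⟩ := Metric.mem_nhds_iff.1 hopen
  obtain ⟨k, hk1, hk2, hk3⟩ := h.inv m (ψ m z) s (fun x hx => (hsub hx).1)
    (fun x hx => (hsub hx).2) z hz (mem_ball_self hs)
  have hkd : DifferentiableAt ℂ k (ψ m z) :=
    (hk1 _ (mem_ball_self hs)).differentiableAt (ball_mem_nhds _ hs)
  have h2 : HasDerivAt (ψ m ∘ k) (deriv (ψ m) (k (ψ m z)) * deriv k (ψ m z)) (ψ m z) := by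
    refine HasDerivAt.comp _ ?_ hkd.hasDerivAt
    rw [hk3]
    exact (FB.diffAt (h.fb m) hz.le).hasDerivAt
  have h3 : (ψ m ∘ k) =ᶠ[𝓝 (ψ m z)] id := by
    filter_upwards [ball_mem_nhds _ hs] with x hx
    exact (hk2 x hx).2
  have h4 := h2.unique ((hasDerivAt_id (ψ m z)).congr_of_eventuallyEq h3)
  rw [hk3, h1, zero_mul] at h4
  exact zero_ne_one h4

/-- **G3 (start).** -/
theorem init (h1 : S_beta) (h2 : S_seq) : S_init := by
  intro ρ hρ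
  have hc : ‖((1 / 16 : ℝ) : ℂ)‖ = 1 / 16 := by
    rw [Complex.norm_real]
    norm_num
  obtain ⟨β, hβ, hd, -, hcr, -⟩ := h1 ((1 / 16 : ℝ) : ℂ) (by rw [hc]; norm_num)
    (by rw [hc]; norm_num)
  have hsq : √‖((1 / 16 : ℝ) : ℂ)‖ = 1 / 4 := by
    rw [hc, show (1 / 16 : ℝ) = (1 / 4) ^ 2 by norm_num, Real.sqrt_sq (by norm_num)]
  rw [hsq] at hcr
  rw [hsq, hc] at hd
  obtain ⟨ψ, hψ⟩ := h2 {z | ‖z‖ < 1 ∧ deriv β z = 0} (1 / 4) (FB.finite_crit hβ) (by norm_num)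
    (by norm_num) (fun z hz => ⟨(hcr z hz.1 hz.2).1.ge, hz.1⟩)
  obtain ⟨m₀, hm₀⟩ := hψ.far ρ hρ
  refine ⟨β ∘ ψ m₀, FB.comp hβ (hψ.fb m₀), fun z hz h0 =>
    hm₀ m₀ le_rfl z hz (crit_comp hβ hψ hz h0), ?_⟩
  obtain ⟨d, hd1, hd2, hd3⟩ := hψ.der m₀
  rw [FB.deriv_comp hβ (hψ.fb m₀) (by simp), (hψ.fb m₀).zero, hd, hd1, norm_mul,
    Complex.norm_real, Complex.norm_real, Real.norm_of_nonneg (by positivity),
    Real.norm_of_nonneg (by linarith)]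
  constructor <;> norm_num <;> linarith

/-- Composition with `Q` of a locally uniform limit. -/
theorem comp_lim {ψ : ℕ → ℂ → ℂ} {ψ' : ℂ → ℂ} (hQ : FB Q) (hψ : ∀ m, FB (ψ m))
    (h : TendstoLocallyUniformlyOn ψ ψ' atTop (ball 0 1)) :
    TendstoLocallyUniformlyOn (fun m => Q ∘ ψ m) (Q ∘ ψ') atTop (ball 0 1) := by
  have hlim : ∀ z ∈ ball (0 : ℂ) 1, ‖ψ' z‖ ≤ 1 := fun z hz => by
    refine le_of_tendsto (h.tendsto_at hz).norm (Eventually.of_forall fun m => ?_)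
    exact FB.norm_le (hψ m) (by simpa using (mem_ball.1 hz).le)
  have huc : UniformContinuousOn Q (closedBall 0 1) :=
    (isCompact_closedBall (0 : ℂ) 1).uniformContinuousOn_of_continuous hQ.an.continuousOn
  rw [Metric.tendstoLocallyUniformlyOn_iff] at h ⊢
  rw [Metric.uniformContinuousOn_iff] at huc
  intro ε hε x hx
  obtain ⟨δ, hδ, h1⟩ := huc ε hε
  obtain ⟨t, ht, h2⟩ := h δ hδ x hx
  refine ⟨t ∩ ball 0 1, inter_mem ht self_mem_nhdsWithin, ?_⟩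
  filter_upwards [h2] with m hm y hy
  exact h1 _ (by simpa using hlim y hy.2) _
    (by simpa using FB.norm_le (hψ m) (z := y) (by simpa using (mem_ball.1 hy.2).le)) (hm y hy.1)

theorem deriv_lim {ρ : ℝ} {ψ : ℕ → ℂ → ℂ} {ψ' : ℂ → ℂ} (hQ : FB Q) (hρ : 0 < ρ)
    (hQ0 : deriv Q 0 ≠ 0) {A : Set ℂ} (hψ : Resolves A ρ ψ)
    (h : TendstoLocallyUniformlyOn ψ ψ' atTop (ball 0 1)) : deriv (Q ∘ ψ') 0 ≠ 0 := by
  have h0 : (0 : ℂ) ∈ ball (0 : ℂ) 1 := mem_ball_self one_pos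
  have hd : ∀ᶠ m in atTop, DifferentiableOn ℂ (ψ m) (ball 0 1) :=
    Eventually.of_forall fun m => FB.diffOn (hψ.fb m)
  have h1 : DifferentiableOn ℂ ψ' (ball 0 1) := h.differentiableOn hd isOpen_ball
  have h2 : ψ' 0 = 0 := by
    refine tendsto_nhds_unique (h.tendsto_at h0) ?_
    simp only [(hψ.fb _).zero]
    exact tendsto_const_nhds
  have h3 : Tendsto (fun m => deriv (ψ m) 0) atTop (𝓝 (deriv ψ' 0)) :=
    (h.deriv hd isOpen_ball).tendsto_at h0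
  have h4 : ρ ≤ ‖deriv ψ' 0‖ := by
    refine ge_of_tendsto h3.norm (Eventually.of_forall fun m => ?_)
    obtain ⟨d, hd1, hd2, hd3⟩ := hψ.der m
    rw [hd1, Complex.norm_real, Real.norm_of_nonneg (by linarith)]
    exact hd2
  have h5 : deriv (Q ∘ ψ') 0 = deriv Q (ψ' 0) * deriv ψ' 0 := by
    refine _root_.deriv_comp 0 ?_ ((h1 0 h0).differentiableAt (isOpen_ball.mem_nhds h0))
    rw [h2]
    exact FB.diffAt hQ (by simp)
  rw [h5, h2]
  refine mul_ne_zero hQ0 ?_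
  intro h6
  rw [h6, norm_zero] at h4
  linarith

theorem exists_rho {R η ε : ℝ} (hR : R < 1) (hη : 0 < η) (hε : 0 < ε) :
    ∃ ρ : ℝ, 0 < ρ ∧ ρ < 1 ∧ -2 * Real.log ρ < ε / 2 ∧
      1 / (1 - R) * (2 * (1 - ρ) / (1 - R)) ≤ η / 2 := by
  have hR0 : 0 < 1 - R := by linarith
  have h1 : Tendsto (fun ρ : ℝ => -2 * Real.log ρ) (𝓝[<] 1) (𝓝 (-2 * Real.log 1)) :=
    (((Real.continuousAt_log one_ne_zero).tendsto).const_mul (-2)).mono_left nhdsWithin_le_nhds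
  have h2 : Tendsto (fun ρ : ℝ => 1 / (1 - R) * (2 * (1 - ρ) / (1 - R))) (𝓝[<] 1)
      (𝓝 (1 / (1 - R) * (2 * (1 - 1) / (1 - R)))) := by
    refine Tendsto.mono_left (Continuous.tendsto ?_ 1) nhdsWithin_le_nhds
    fun_prop
  rw [Real.log_one, mul_zero] at h1
  rw [sub_self, mul_zero, zero_div, mul_zero] at h2
  have h3 : ∀ᶠ ρ : ℝ in 𝓝[<] 1, 0 < ρ :=
    nhdsWithin_le_nhds (lt_mem_nhds one_pos)
  have h4 : ∀ᶠ ρ : ℝ in 𝓝[<] 1, ρ < 1 := self_mem_nhdsWithin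
  obtain ⟨ρ, ha, hb, hc, hd⟩ := (h3.and (h4.and
    ((h1.eventually (gt_mem_nhds (by positivity : (0 : ℝ) < ε / 2))).and
      (h2.eventually (ge_mem_nhds (by positivity : (0 : ℝ) < η / 2)))))).exists
  exact ⟨ρ, ha, hb, hc, hd⟩

/-- **G2 (the step).** -/
theorem step (h1 : S_pert) (h2 : S_seq) (h3 : S_near) (h4 : S_mass) (h5 : S_stab) (h6 : S_U) :
    S_step := by
  intro R η ε hR0 hR1 hη hε hε1
  obtain ⟨ρ, hρ0, hρ1, hρε, hρη⟩ := exists_rho hR1 hη hε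
  refine ⟨ρ, hρ1, fun P hP hPcr => ?_⟩
  obtain ⟨Q, hQ, hgen, hQP, hQcr⟩ := h1 P ρ (η / 2) hP hρ1 (by positivity) hPcr
  have hfin := FB.finite_crit hQ
  obtain ⟨ψ, hψ⟩ := h2 {z | ‖z‖ < 1 ∧ deriv Q z = 0} ρ hfin hρ0 hρ1
    (fun z hz => ⟨(hQcr z hz.1 hz.2).le, hz.1⟩)
  obtain ⟨ψ', hψ'⟩ := hψ.lim
  obtain ⟨r, hr0, hr1, hr⟩ := h4 Q ρ (ε / 2) ψ hQ hgen hρ0 hρ1 (by positivity) (by linarith) hQcr
    hψ hρε
  have hQ0 : deriv Q 0 ≠ 0 := by
    intro h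
    have := hQcr 0 (by simp) h
    rw [norm_zero] at this
    linarith
  have hFB : ∀ m, FB (Q ∘ ψ m) := fun m => FB.comp hQ (hψ.fb m)
  have hmax : max r (1 - ε / 2) < 1 := max_lt hr1 (by linarith)
  have hmax2 : 1 - ε < max r (1 - ε / 2) := lt_max_of_lt_right (by linarith)
  obtain ⟨η', hη', m₀, hgood⟩ := h5 (fun m => Q ∘ ψ m) (Q ∘ ψ') (max r (1 - ε / 2))
    ((max r (1 - ε / 2) + 1) / 2) ε (Q '' {z | ‖z‖ < 1 ∧ deriv Q z = 0}) hFB
    (comp_lim hQ hψ.fb hψ') (deriv_lim hQ hρ0 hQ0 hψ hψ') (lt_max_of_lt_left hr0)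
    (by linarith) (by linarith) hε hε1 hmax2 (hfin.image _) (fun m a ha haB => by
      have ha1 : ‖a‖ < 1 := by linarith
      refine ((h6 (Q ∘ ψ m) a (hFB m) ha1).1 r _ hr0 (le_max_left _ _) hmax).trans
        (hr m a ha fun z hz hza hz0 => haB ⟨z, ⟨hz, hz0⟩, hza⟩))
  refine ⟨(max r (1 - ε / 2) + 1) / 2, η', by linarith, by linarith, hη', fun ρ' hρ' => ?_⟩
  obtain ⟨m₁, hm₁⟩ := hψ.far ρ' hρ'
  refine ⟨Q ∘ ψ (max m₀ m₁), hFB _, fun z hz => ?_, fun z hz h0 =>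
    hm₁ _ (le_max_right _ _) z hz (crit_comp hQ hψ hz h0), hgood _ (le_max_left _ _)⟩
  have hz1 : ‖z‖ < 1 := hz.trans_lt hR1
  obtain ⟨d, hd1, hd2, hd3⟩ := hψ.der (max m₀ m₁)
  have h7 := h3 (ψ (max m₀ m₁)) ρ d (hψ.fb _) hd1 hd2 hd3 hρ0 z hz1
  have h8 : 2 * (1 - ρ) / (1 - ‖z‖) ≤ 2 * (1 - ρ) / (1 - R) := by
    have : 0 < 1 - R := by linarith
    have : 0 ≤ 2 * (1 - ρ) := by linarith
    gcongr
  have h9 : ‖Q (ψ (max m₀ m₁) z) - Q z‖ ≤ η / 2 :=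
    calc ‖Q (ψ (max m₀ m₁) z) - Q z‖ ≤ 1 / (1 - R) * ‖ψ (max m₀ m₁) z - z‖ :=
          FB.lip hQ hR1 ((FB.norm_le_norm (hψ.fb _) hz1).trans hz) hz
      _ ≤ 1 / (1 - R) * (2 * (1 - ρ) / (1 - R)) := by
          have : 0 < 1 - R := by linarith
          gcongr
          exact h7.trans h8
      _ ≤ η / 2 := hρη
  calc ‖(Q ∘ ψ (max m₀ m₁)) z - P z‖ = ‖(Q (ψ (max m₀ m₁) z) - Q z) + (Q z - P z)‖ := by
        rw [Function.comp_apply, sub_add_sub_cancel]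
    _ ≤ η / 2 + η / 2 := (norm_add_le _ _).trans (add_le_add h9 (hQP z hz1.le))
    _ = η := by ring

end Pool.Agent.H18.BP
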